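import Pool.Agent.H88.WR.Targets

/-!
# CPA: compact operators on reflexive spaces attain their norm
-/

set_option autoImplicit false

open Filter Topology Set Pool.Agent.H85.WMP Pool.Agent.H88.WR

namespace Pool.Agent.H50.WR

theorem pf_CPA (𝕜 : Type) [RCLike 𝕜] (hES : T_ES 𝕜) : T_CPA 𝕜 := by
  intro E _ _ F _ _ hR hC T ⟨x, ⟨hx1, hx2⟩, _⟩
  obtain ⟨z, φ, hφ, hz⟩ := hES E hR x 1 (fun n => (hx1 n).le)
  by_cases hT : T = 0
  · exact ⟨x 0, hx1 0, by rw [hT]; simp⟩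
  have hTpos : 0 < ‖T‖ := norm_pos_iff.2 hT
  have hz1 : ‖z‖ ≤ 1 := by
    obtain ⟨f, hf1, hf2⟩ := exists_dual_vector'' 𝕜 z
    have l1 : Tendsto (fun n => ‖f (x (φ n))‖) atTop (𝓝 ‖f z‖) := (hz f).norm
    have l2 : ‖f z‖ ≤ 1 := le_of_tendsto' l1 fun n => by
      calc ‖f (x (φ n))‖ ≤ ‖f‖ * ‖x (φ n)‖ := f.le_opNorm _
        _ ≤ 1 * 1 := mul_le_mul hf1 (hx1 _).le (norm_nonneg _) zero_le_one
        _ = 1 := one_mul 1
    rw [hf2] at l2
    simpa using l2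
  obtain ⟨K, hK, hKs⟩ := (hC T).image_closedBall_subset_compact (f := T.toLinearMap) 1
  have hmem : ∀ n, T (x (φ n)) ∈ K := fun n => hKs ⟨x (φ n), by simp [hx1], rfl⟩
  obtain ⟨w, _, ψ, hψ, hw⟩ := hK.tendsto_subseq hmem
  have hwz : w = T z := by
    refine (SeparatingDual.eq_iff_forall_dual_eq (R := 𝕜)).2 fun g => ?_
    have a1 : Tendsto (fun n => g (T (x (φ (ψ n))))) atTop (𝓝 (g w)) :=
      (g.continuous.tendsto w).comp hw
    have a2 : Tendsto (fun n => g (T (x (φ (ψ n))))) atTop (𝓝 (g (T z))) :=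
      (hz (g.comp T)).comp hψ.tendsto_atTop
    exact tendsto_nhds_unique a1 a2
  have hn : ‖T z‖ = ‖T‖ := by
    rw [← hwz]
    have a1 : Tendsto (fun n => ‖T (x (φ (ψ n)))‖) atTop (𝓝 ‖w‖) := hw.norm
    have a2 : Tendsto (fun n => ‖T (x (φ (ψ n)))‖) atTop (𝓝 ‖T‖) :=
      hx2.comp (hφ.comp hψ).tendsto_atTop
    exact tendsto_nhds_unique a1 a2
  have hz2 : 1 ≤ ‖z‖ := by
    have h := T.le_opNorm z
    rw [hn] at h
    exact (le_mul_iff_one_le_right hTpos).1 h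
  exact ⟨z, le_antisymm hz1 hz2, hn⟩

end Pool.Agent.H50.WR
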