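import Pool.Agent.H88.WR.Targets

/-!
# NCP: noncompact operators and weakly null sequences
-/

set_option autoImplicit false

open Filter Topology Set Pool.Agent.H85.WMP Pool.Agent.H88.WR

namespace Pool.Agent.H50.WR

theorem pf_NCP (𝕜 : Type) [RCLike 𝕜] (hES : T_ES 𝕜) : T_NCP 𝕜 := by
  intro E _ _ F _ _ _ hR T hT
  have h1 : ∃ u : ℕ → E, (∀ n, ‖u n‖ ≤ 1) ∧ ∀ (φ : ℕ → ℕ) (w : F), StrictMono φ →
      ¬ Tendsto (fun n => T (u (φ n))) atTop (𝓝 w) := by
    by_contra hcon
    push Not at hcon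
    apply hT
    have hK : IsCompact (closure (T '' Metric.closedBall 0 1)) := by
      apply IsSeqCompact.isCompact
      intro w hw
      have h2 : ∀ n : ℕ, ∃ u : E, ‖u‖ ≤ 1 ∧ ‖T u - w n‖ ≤ 1 / ((n : ℝ) + 1) := by
        intro n
        obtain ⟨y, ⟨u, hu, rfl⟩, hy⟩ := Metric.mem_closure_iff.1 (hw n) (1 / ((n : ℝ) + 1))
          (by positivity)
        refine ⟨u, by simpa using hu, ?_⟩
        rw [← dist_eq_norm, dist_comm]
        exact hy.le
      choose u hu1 hu2 using h2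
      obtain ⟨φ, v, hφ, hv⟩ := hcon u hu1
      have hw2 : Tendsto (fun n => w (φ n)) atTop (𝓝 v) := by
        have e : (fun n => w (φ n)) = fun n => T (u (φ n)) - (T (u (φ n)) - w (φ n)) := by
          ext
          simp
        rw [e]
        have l : Tendsto (fun n => T (u (φ n)) - w (φ n)) atTop (𝓝 0) := by
          have l0 : Tendsto (fun n : ℕ => 1 / ((n : ℝ) + 1)) atTop (𝓝 0) :=
            tendsto_one_div_add_atTop_nhds_zero_nat
          have l1 := l0.comp hφ.tendsto_atTop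
          exact squeeze_zero_norm (fun n => hu2 (φ n)) l1
        simpa using hv.sub l
      refine ⟨v, ?_, φ, hφ, hw2⟩
      exact isClosed_closure.mem_of_tendsto hw2 (Eventually.of_forall fun n => hw _)
    refine ⟨_, hK, ?_⟩
    refine mem_of_superset (Metric.closedBall_mem_nhds 0 one_pos) ?_
    intro x hx
    exact subset_closure ⟨x, hx, rfl⟩
  obtain ⟨u, hu, hnc⟩ := h1
  obtain ⟨z, φ, hφ, hz⟩ := hES E hR u 1 hu
  have h2 : ¬ Tendsto (fun n => T (u (φ n))) atTop (𝓝 (T z)) := hnc φ _ hφ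
  rw [Metric.tendsto_atTop] at h2
  push Not at h2
  obtain ⟨δ, hδ, h3⟩ := h2
  obtain ⟨ψ, hψ, h4⟩ := Filter.extraction_of_frequently_atTop
    (P := fun n => δ ≤ dist (T (u (φ n))) (T z)) (frequently_atTop.2 h3)
  refine ⟨fun n => u (φ (ψ n)) - z, 1 + ‖z‖, δ, hδ, ?_, ?_, ?_⟩
  · intro n
    have := norm_sub_le (u (φ (ψ n))) z
    have := hu (φ (ψ n))
    linarith
  · intro f
    have h5 := ((hz f).comp hψ.tendsto_atTop).sub_const (f z)
    simpa using h5
  · intro n
    have h5 := h4 n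
    rw [dist_eq_norm] at h5
    simpa using h5

end Pool.Agent.H50.WR
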